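import Pool.Agent.W569.FM.MainD

/-!
A module criterion for `p`-adic representations: `H` the kernel of a surjection of a topological group
`G` onto a finite group `D` of order prime to `p`, `I` a set of elements of `G` stable under conjugation.
-/

set_option autoImplicit false

namespace Pool.Agent.X148.FM

open Pool.Agent.W569.FM Matrix

/-- no nonzero `D`-equivariant quotient `W` of `H` (elementary abelian, trivial on `I`) carries an
equivariant alternating product whose values span `W` -/
def NoPerf (p : ℕ) [Fact p.Prime] {G D : Type} [Group G] [TopologicalSpace G] [Group D] (π : G →* D)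
    (H : Subgroup G) (I : Set G) : Prop :=
  ∀ (W : Type) [AddCommGroup W] [Module (ZMod p) W] [Finite W] (θ : Representation (ZMod p) D W)
    (f : H →* Multiplicative W), Function.Surjective f → IsOpen (f.ker : Set H) →
    (∀ τ : H, (τ : G) ∈ I → f τ = 1) →
    (∀ (σ : G) (g g' : H), (g' : G) = σ * g * σ⁻¹ →
      Multiplicative.toAdd (f g') = θ (π σ) (Multiplicative.toAdd (f g))) →
    ∀ b : W →ₗ[ZMod p] W →ₗ[ZMod p] W, (∀ w, b w w = 0) →
      (∀ d w w', b (θ d w) (θ d w') = θ d (b w w')) →
      Submodule.span (ZMod p) {x | ∃ w w', x = b w w'} = ⊤ → Subsingleton W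

section maschke
variable {p : ℕ} [Fact p.Prime] {D : Type} [Group D] [Finite D]
  {U : Type} [AddCommGroup U] [Module (ZMod p) U]

/-- equivariant projections -/
theorem exists_proj (hD : ¬ p ∣ Nat.card D) (θ : Representation (ZMod p) D U)
    (W : Submodule (ZMod p) U) (hW : ∀ d, ∀ w ∈ W, θ d w ∈ W) :
    ∃ P : U →ₗ[ZMod p] U, (∀ u, P u ∈ W) ∧ (∀ w ∈ W, P w = w) ∧ ∀ d u, P (θ d u) = θ d (P u) := by
  classical
  cases nonempty_fintype D
  obtain ⟨P0, hP0⟩ := W.exists_isCompl
  let Q : U →ₗ[ZMod p] U := W.subtype ∘ₗ W.projectionOnto P0 hP0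
  have hQ1 : ∀ u, Q u ∈ W := fun u => (W.projectionOnto P0 hP0 u).2
  have hQ2 : ∀ w ∈ W, Q w = w := fun w hw => by
    show ((W.projectionOnto P0 hP0 w : W) : U) = w
    have := Submodule.projectionOnto_apply_left hP0 ⟨w, hw⟩
    exact congrArg Subtype.val this
  have hc : ((Nat.card D : ℕ) : ZMod p) ≠ 0 := by
    rw [Ne, ZMod.natCast_eq_zero_iff]
    exact hD
  let P : U →ₗ[ZMod p] U := ((Nat.card D : ℕ) : ZMod p)⁻¹ • ∑ d : D, θ d⁻¹ ∘ₗ Q ∘ₗ θ d
  have hP : ∀ u, P u = ((Nat.card D : ℕ) : ZMod p)⁻¹ • ∑ d : D, θ d⁻¹ (Q (θ d u)) := by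
    intro u
    simp [P, LinearMap.sum_apply]
  refine ⟨P, fun u => ?_, fun w hw => ?_, fun d u => ?_⟩
  · rw [hP]
    exact W.smul_mem _ (W.sum_mem fun d _ => hW _ _ (hQ1 _))
  · rw [hP]
    have h1 : ∀ d : D, θ d⁻¹ (Q (θ d w)) = w := by
      intro d
      rw [hQ2 _ (hW d w hw), ← Module.End.mul_apply, ← map_mul, inv_mul_cancel, map_one,
        Module.End.one_apply]
    rw [Finset.sum_congr rfl fun d _ => h1 d, Finset.sum_const, Finset.card_univ,
      ← Nat.card_eq_fintype_card, ← Nat.cast_smul_eq_nsmul (ZMod p), smul_smul, inv_mul_cancel₀ hc,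
      one_smul]
  · rw [hP, hP, map_smul, map_sum]
    congr 1
    rw [← Equiv.sum_comp (Equiv.mulRight d) (fun x => θ d (θ x⁻¹ (Q (θ x u))))]
    refine Finset.sum_congr rfl fun x _ => ?_
    have h1 : (Equiv.mulRight d) x = x * d := rfl
    rw [h1, ← Module.End.mul_apply (θ d), ← map_mul θ d, ← Module.End.mul_apply (θ x), ← map_mul θ x]
    congr 2
    group

end maschke

variable {p : ℕ} [Fact p.Prime] {n : ℕ}

/-- right translation of functions on `D` -/
noncomputable def tr (p : ℕ) (D M : Type) [Group D] [AddCommGroup M] [Module (ZMod p) M] :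
    Representation (ZMod p) D (D → M) where
  toFun d := LinearMap.funLeft (ZMod p) M (fun δ => δ * d)
  map_one' := by
    ext u δ
    simp [LinearMap.funLeft_apply]
  map_mul' := fun a b => by
    apply LinearMap.ext
    intro u
    funext δ
    simp [LinearMap.funLeft_apply, mul_assoc]

theorem tr_apply {D M : Type} [Group D] [AddCommGroup M] [Module (ZMod p) M] (d : D) (u : D → M)
    (δ : D) : tr p D M d u δ = u (δ * d) := rfl

/-- **the criterion** -/
theorem crit (hDEPTH : S_DEPTH) {G : Type} [Group G] [TopologicalSpace G] [IsTopologicalGroup G]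
    {D : Type} [Group D] [Finite D] (hD : ¬ p ∣ Nat.card D) (π : G →* D)
    (hπ : Function.Surjective π) (H : Subgroup G) (hHπ : ∀ σ, σ ∈ H ↔ π σ = 1)
    (I : Set G) (hI : ∀ σ, ∀ τ ∈ I, σ * τ * σ⁻¹ ∈ I)
    (e : ℕ) (he1 : 1 ≤ e) (hpe : 2 < p ^ e)
    (he : ∀ (E : Type) [CommGroup E] [Finite E], IsPGroup p E → ∀ f : H →* E,
      IsOpen (f.ker : Set H) → (∀ τ : H, (τ : G) ∈ I → f τ = 1) → ∀ g, f g ^ (p ^ e) = 1)
    (hX : NoPerf p π H I)
    (ρ : H →* GL (Fin n) ℤ_[p]) (hρ : Continuous ρ)
    (hur : ∀ τ : H, (τ : G) ∈ I → ρ τ = 1)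
    (hcong : ∀ g, Cong e (ρ g : Matrix (Fin n) (Fin n) ℤ_[p])) : ∀ g, ρ g = 1 := by
  classical
  have hp : p.Prime := Fact.out
  have hnorm : H.Normal := by
    constructor
    intro h hh g
    rw [hHπ, map_mul, map_mul, (hHπ h).1 hh, mul_one, map_inv, mul_inv_cancel]
  have hcjur : ∀ (σ : G) (τ : H), (τ : G) ∈ I → ρ (cjg H σ τ) = 1 := by
    intro σ τ hτ
    refine hur (cjg H σ τ) ?_
    rw [cjg_val]
    exact hI _ _ hτ
  choose s hs using hπ
  -- one step
  have step : ∀ k, e ≤ k → (∀ g, Cong k (ρ g : Matrix (Fin n) (Fin n) ℤ_[p])) →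
      ∀ g, Cong (k + 1) (ρ g : Matrix (Fin n) (Fin n) ℤ_[p]) := by
    intro k hek hk
    have hk1 : 1 ≤ k := he1.trans hek
    have hpk : 2 < p ^ k := lt_of_lt_of_le hpe (Nat.pow_le_pow_right hp.pos hek)
    let X := layer ρ k hk1 hk
    have hXcoef : ∀ g, Multiplicative.toAdd (X g) =
        red p n (coef k (ρ g : Matrix (Fin n) (Fin n) ℤ_[p])) := fun g => rfl
    have hXconj : ∀ a b : H, X (a * b * a⁻¹) = X b := by
      intro a b
      rw [map_mul, map_mul, map_inv, mul_comm (X a), mul_inv_cancel_right]
    have hXclass : ∀ (σ σ' : G), π σ = π σ' → ∀ g : H, X (cjg H σ' g) = X (cjg H σ g) := by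
      intro σ σ' hσ g
      have hh : σ⁻¹ * σ' ∈ H := by
        rw [hHπ, map_mul, map_inv, hσ, inv_mul_cancel]
      have h1 : σ' = σ * ((⟨σ⁻¹ * σ', hh⟩ : H) : G) := by
        show σ' = σ * (σ⁻¹ * σ')
        group
      conv_lhs => rw [h1]
      rw [cjg_mul, cjg_mem, map_mul (cjg H σ), map_mul (cjg H σ), map_inv (cjg H σ), hXconj]
    -- the functions on `D`
    let φ : H →* Multiplicative (D → Matrix (Fin n) (Fin n) (ZMod p)) :=
      { toFun := fun g => Multiplicative.ofAdd fun δ => Multiplicative.toAdd (X (cjg H (s δ) g))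
        map_one' := by
          apply Multiplicative.toAdd.injective
          funext δ
          show Multiplicative.toAdd (X (cjg H (s δ) 1)) = 0
          rw [map_one, map_one, toAdd_one]
        map_mul' := fun g g' => by
          apply Multiplicative.toAdd.injective
          funext δ
          show Multiplicative.toAdd (X (cjg H (s δ) (g * g'))) =
            Multiplicative.toAdd (X (cjg H (s δ) g)) + Multiplicative.toAdd (X (cjg H (s δ) g'))
          rw [map_mul, map_mul, toAdd_mul] }
    have hφ : ∀ g δ, Multiplicative.toAdd (φ g) δ = Multiplicative.toAdd (X (cjg H (s δ) g)) :=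
      fun _ _ => rfl
    have hφconj : ∀ (σ : G) (g : H), Multiplicative.toAdd (φ (cjg H σ g)) =
        tr p D _ (π σ) (Multiplicative.toAdd (φ g)) := by
      intro σ g
      funext δ
      rw [hφ, tr_apply, hφ, ← cjg_mul]
      rw [hXclass (s (δ * π σ)) (s δ * σ) (by rw [hs, map_mul, hs]) g]
    let W : Submodule (ZMod p) (D → Matrix (Fin n) (Fin n) (ZMod p)) :=
      AddSubgroup.toZModSubmodule p (MonoidHom.toAdditiveLeft φ).range
    have hWmem : ∀ u, u ∈ W ↔ ∃ g : H, Multiplicative.toAdd (φ g) = u := by
      intro u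
      constructor
      · rintro ⟨g, hg⟩
        exact ⟨Additive.toMul g, hg⟩
      · rintro ⟨g, hg⟩
        exact ⟨Additive.ofMul g, hg⟩
    have hWin : ∀ g : H, Multiplicative.toAdd (φ g) ∈ W := fun g => (hWmem _).2 ⟨g, rfl⟩
    have hWst : ∀ d, ∀ w ∈ W, tr p D _ d w ∈ W := by
      intro d w hw
      obtain ⟨g, rfl⟩ := (hWmem w).1 hw
      refine (hWmem _).2 ⟨cjg H (s d) g, ?_⟩
      rw [hφconj, hs]
    -- the commutators
    let C : Submodule (ZMod p) (D → Matrix (Fin n) (Fin n) (ZMod p)) :=
      Submodule.span (ZMod p) {x | ∃ w ∈ W, ∃ w' ∈ W, x = w * w' - w' * w}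
    let N := 2 * k + 1
    let good : Subgroup H :=
      { carrier := {u | (∀ δ, Cong (2 * k) (ρ (cjg H (s δ) u) : Matrix (Fin n) (Fin n) ℤ_[p])) ∧
          (fun δ => red p n (coef (2 * k) (ρ (cjg H (s δ) u) : Matrix (Fin n) (Fin n) ℤ_[p]))) ∈ C}
        one_mem' := by
          refine ⟨fun δ => ?_, ?_⟩
          · rw [map_one, map_one, Units.val_one]
            exact cong_one
          · have h1 : (fun δ => red p n (coef (2 * k) (ρ (cjg H (s δ) 1) :
                Matrix (Fin n) (Fin n) ℤ_[p]))) = 0 := by
              funext δ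
              rw [map_one, map_one, Units.val_one, coef_one, map_zero]
              rfl
            rw [h1]
            exact C.zero_mem
        mul_mem' := by
          rintro u v ⟨hu1, hu2⟩ ⟨hv1, hv2⟩
          refine ⟨fun δ => ?_, ?_⟩
          · rw [map_mul, map_mul, Units.val_mul]
            exact (coef_mul (hu1 δ) (hv1 δ)).1
          · have h1 : (fun δ => red p n (coef (2 * k) (ρ (cjg H (s δ) (u * v)) :
                Matrix (Fin n) (Fin n) ℤ_[p]))) =
                (fun δ => red p n (coef (2 * k) (ρ (cjg H (s δ) u) :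
                Matrix (Fin n) (Fin n) ℤ_[p]))) + (fun δ => red p n (coef (2 * k)
                (ρ (cjg H (s δ) v) : Matrix (Fin n) (Fin n) ℤ_[p]))) := by
              funext δ
              rw [Pi.add_apply, map_mul, map_mul, Units.val_mul,
                red_coef_mul (by omega) (hu1 δ) (hv1 δ)]
            rw [h1]
            exact C.add_mem hu2 hv2
        inv_mem' := by
          rintro u ⟨hu1, hu2⟩
          refine ⟨fun δ => ?_, ?_⟩
          · rw [map_inv, map_inv]
            exact cong_inv (hu1 δ)
          · have h1 : (fun δ => red p n (coef (2 * k) (ρ (cjg H (s δ) u⁻¹) :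
                Matrix (Fin n) (Fin n) ℤ_[p]))) =
                -(fun δ => red p n (coef (2 * k) (ρ (cjg H (s δ) u) :
                Matrix (Fin n) (Fin n) ℤ_[p]))) := by
              funext δ
              rw [Pi.neg_apply, map_inv, map_inv, red_coef_inv (by omega) (hu1 δ)]
            rw [h1]
            exact C.neg_mem hu2 }
    have hcommgood : commutator H ≤ good := by
      rw [commutator_def, Subgroup.commutator_le]
      intro g _ h _
      have h1 : ∀ δ, ∃ γ : Matrix (Fin n) (Fin n) ℤ_[p],
          (ρ (cjg H (s δ) (g * h * g⁻¹ * h⁻¹)) : Matrix (Fin n) (Fin n) ℤ_[p]) =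
          1 + ((p : ℤ_[p]) ^ (2 * k)) •
            (coef k (ρ (cjg H (s δ) g) : Matrix (Fin n) (Fin n) ℤ_[p]) *
              coef k (ρ (cjg H (s δ) h) : Matrix (Fin n) (Fin n) ℤ_[p]) -
            coef k (ρ (cjg H (s δ) h) : Matrix (Fin n) (Fin n) ℤ_[p]) *
              coef k (ρ (cjg H (s δ) g) : Matrix (Fin n) (Fin n) ℤ_[p]) +
              (p : ℤ_[p]) ^ k • γ) := by
        intro δ
        obtain ⟨γ, hγ⟩ := comm_coef (coef_spec (hk (cjg H (s δ) g)))
          (coef_spec (hk (cjg H (s δ) h)))
        refine ⟨γ, ?_⟩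
        have h2 : cjg H (s δ) (g * h * g⁻¹ * h⁻¹) = cjg H (s δ) g * cjg H (s δ) h *
            (cjg H (s δ) g)⁻¹ * (cjg H (s δ) h)⁻¹ := by
          rw [map_mul, map_mul, map_mul, map_inv, map_inv]
        rw [h2, map_mul, map_mul, map_mul, map_inv, map_inv, hγ, smul_add, smul_smul, ← pow_add,
          add_assoc]
        congr 4
        ring
      refine ⟨fun δ => ?_, ?_⟩
      · obtain ⟨γ, hγ⟩ := h1 δ
        exact ⟨_, hγ⟩
      · refine Submodule.subset_span ⟨Multiplicative.toAdd (φ g), hWin g,
          Multiplicative.toAdd (φ h), hWin h, ?_⟩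
        funext δ
        obtain ⟨γ, hγ⟩ := h1 δ
        rw [commutatorElement_def, coef_unique hγ, map_add, map_sub, map_mul, map_mul, red_smul, map_pow, toZMod_p,
          zero_pow (by omega), zero_smul, add_zero]
        rfl
    -- `p ^ e`-th powers
    let q : GL (Fin n) ℤ_[p] →* GL (Fin n) (ZMod (p ^ N)) :=
      Matrix.GeneralLinearGroup.map (PadicInt.toZModPow N)
    have hNZ : NeZero (p ^ N) := ⟨pow_ne_zero _ hp.ne_zero⟩
    have hq1 : ∀ M : GL (Fin n) ℤ_[p], Cong N (M : Matrix (Fin n) (Fin n) ℤ_[p]) → q M = 1 := by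
      rintro M ⟨β, hβ⟩
      apply Units.ext
      ext i j
      show PadicInt.toZModPow N ((M : Matrix (Fin n) (Fin n) ℤ_[p]) i j) = _
      rw [hβ, Matrix.add_apply, Matrix.smul_apply, smul_eq_mul, map_add, map_mul, map_pow,
        map_natCast]
      have h0 : ((p : ℕ) : ZMod (p ^ N)) ^ N = 0 := by
        rw [← Nat.cast_pow, ZMod.natCast_self]
      rw [h0, zero_mul, add_zero, Units.val_one]
      by_cases hij : i = j
      · subst hij
        rw [Matrix.one_apply_eq, Matrix.one_apply_eq, map_one]
      · rw [Matrix.one_apply_ne hij, Matrix.one_apply_ne hij, map_zero]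
    let Φ : H →* (D → GL (Fin n) (ZMod (p ^ N))) :=
      MonoidHom.pi fun δ => (q.comp ρ).comp (cjg H (s δ))
    have hΦ : ∀ g δ, Φ g δ = q (ρ (cjg H (s δ) g)) := fun _ _ => rfl
    have hpow : ∀ g : H, ∃ u ∈ commutator H, Φ (g ^ (p ^ e)) = Φ u := by
      have hΦfin : Finite Φ.range := inferInstance
      have hΦp : IsPGroup p Φ.range := by
        rintro ⟨_, g, rfl⟩
        refine ⟨N, ?_⟩
        apply Subtype.ext
        show (Φ g) ^ (p ^ N) = 1
        rw [← map_pow]
        funext δ
        rw [hΦ]
        apply hq1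
        rw [map_pow, map_pow, Units.val_pow_eq_pow_val]
        obtain ⟨α, hα⟩ := hk (cjg H (s δ) g)
        obtain ⟨γ, hγ⟩ := hDEPTH p k N 1 n hpk hk1 α
        rw [mul_one, ← hα, Nat.cast_one, one_mul] at hγ
        rw [hγ]
        refine ⟨((p : ℤ_[p]) ^ k) • α + ((p : ℤ_[p]) ^ (k + 1)) • γ, ?_⟩
        have hp1 : (p : ℤ_[p]) ^ N * (p : ℤ_[p]) ^ k = (p : ℤ_[p]) ^ (k + N) := by
          rw [← pow_add, add_comm]
        have hp2 : (p : ℤ_[p]) ^ N * (p : ℤ_[p]) ^ (k + 1) = (p : ℤ_[p]) ^ (k + N + 1) := by
          rw [← pow_add]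
          congr 1
          omega
        rw [smul_add, smul_smul, smul_smul, hp1, hp2, add_assoc]
      let ab : H →* Abelianization Φ.range := Abelianization.of.comp Φ.rangeRestrict
      have : Finite (Abelianization Φ.range) := inferInstance
      have habp : IsPGroup p (Abelianization Φ.range) :=
        hΦp.of_surjective Abelianization.of QuotientGroup.mk_surjective
      have hΦo : ∀ᶠ g in nhds (1 : H), Φ g = 1 := by
        have h1 : ∀ δ : D, ∀ᶠ g in nhds (1 : H), Φ g δ = 1 := by
          intro δ
          have h3 := eventually_cong ρ hρ N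
          have h4 : Filter.Tendsto (cjg H (s δ)) (nhds 1) (nhds 1) := by
            have := (cjg_continuous H (s δ)).tendsto 1
            rwa [map_one] at this
          filter_upwards [h4.eventually h3] with g hg
          rw [hΦ]
          exact hq1 _ hg
        filter_upwards [Filter.eventually_all.2 h1] with g hg
        funext δ
        exact hg δ
      have habo : IsOpen (ab.ker : Set H) := by
        apply Subgroup.isOpen_of_mem_nhds _ (g := (1 : H))
        filter_upwards [hΦo] with g hg
        show ab g = 1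
        have h1 : Φ.rangeRestrict g = 1 := Subtype.ext hg
        show Abelianization.of (Φ.rangeRestrict g) = 1
        rw [h1, map_one]
      intro g
      have h1 := he (Abelianization Φ.range) habp ab habo (fun τ hτ => by
        have h1 : Φ.rangeRestrict τ = 1 := by
          apply Subtype.ext
          funext δ
          show q (ρ (cjg H (s δ) τ)) = 1
          rw [hcjur (s δ) τ hτ, map_one]
        show Abelianization.of (Φ.rangeRestrict τ) = 1
        rw [h1, map_one]) g
      rw [← map_pow] at h1
      have h2 : Φ.rangeRestrict (g ^ p ^ e) ∈ commutator Φ.range := by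
        have h3 : Abelianization.of (Φ.rangeRestrict (g ^ p ^ e)) = 1 := h1
        rwa [← MonoidHom.mem_ker, Abelianization.ker_of] at h3
      have h3 : (commutator H).map Φ.rangeRestrict = commutator Φ.range := by
        rw [map_commutator_eq, MonoidHom.range_eq_top.2 Φ.rangeRestrict_surjective,
          commutator_def]
      rw [← h3] at h2
      obtain ⟨u, hu, hu'⟩ := h2
      exact ⟨u, hu, (congrArg Subtype.val hu').symm⟩
    -- the first layer of a `p ^ e`-th power
    have hval : ∀ g : H, Multiplicative.toAdd (φ g) ∈ C := by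
      intro g
      obtain ⟨u, hu, hgu⟩ := hpow g
      obtain ⟨hu1, hu2⟩ := hcommgood hu
      have h1 : ∀ δ, ∃ R : Matrix (Fin n) (Fin n) ℤ_[p],
          (ρ (cjg H (s δ) (g ^ p ^ e)) : Matrix (Fin n) (Fin n) ℤ_[p]) =
          (ρ (cjg H (s δ) u) : Matrix (Fin n) (Fin n) ℤ_[p]) + ((p : ℤ_[p]) ^ N) • R := by
        intro δ
        have h2 := congrFun hgu δ
        rw [hΦ, hΦ] at h2
        have h3 : ∀ i j, ∃ r : ℤ_[p],
            (ρ (cjg H (s δ) (g ^ p ^ e)) : Matrix (Fin n) (Fin n) ℤ_[p]) i j -
            (ρ (cjg H (s δ) u) : Matrix (Fin n) (Fin n) ℤ_[p]) i j = (p : ℤ_[p]) ^ N * r := by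
          intro i j
          have h4 := congrArg (fun M : GL (Fin n) (ZMod (p ^ N)) =>
            (M : Matrix (Fin n) (Fin n) (ZMod (p ^ N))) i j) h2
          have h5 : PadicInt.toZModPow N ((ρ (cjg H (s δ) (g ^ p ^ e)) :
              Matrix (Fin n) (Fin n) ℤ_[p]) i j - (ρ (cjg H (s δ) u) :
              Matrix (Fin n) (Fin n) ℤ_[p]) i j) = 0 := by
            rw [map_sub, sub_eq_zero]
            exact h4
          rw [← RingHom.mem_ker, PadicInt.ker_toZModPow, Ideal.mem_span_singleton] at h5
          exact h5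
        choose R hR using h3
        refine ⟨Matrix.of R, ?_⟩
        ext i j
        rw [Matrix.add_apply, Matrix.smul_apply, Matrix.of_apply, smul_eq_mul, ← hR]
        ring
      have h2 : Multiplicative.toAdd (φ g) = if k = e then (fun δ =>
          red p n (coef (2 * k) (ρ (cjg H (s δ) u) : Matrix (Fin n) (Fin n) ℤ_[p]))) else 0 := by
        funext δ
        obtain ⟨R, hR⟩ := h1 δ
        obtain ⟨γ, hγ⟩ := hDEPTH p k e 1 n hpk hk1
          (coef k (ρ (cjg H (s δ) g) : Matrix (Fin n) (Fin n) ℤ_[p]))
        rw [mul_one, ← coef_spec (hk (cjg H (s δ) g)), Nat.cast_one, one_mul] at hγ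
        rw [map_pow, map_pow, Units.val_pow_eq_pow_val, hγ, coef_spec (hu1 δ)] at hR
        set α := coef k (ρ (cjg H (s δ) g) : Matrix (Fin n) (Fin n) ℤ_[p]) with hα
        set β := coef (2 * k) (ρ (cjg H (s δ) u) : Matrix (Fin n) (Fin n) ℤ_[p]) with hβ
        have h3 : ((p : ℤ_[p]) ^ (k + e)) • (α + (p : ℤ_[p]) • γ) = ((p : ℤ_[p]) ^ (k + e)) •
            (((p : ℤ_[p]) ^ (k - e)) • (β + (p : ℤ_[p]) • R)) := by
          have h4 : ((p : ℤ_[p]) ^ (k + e)) • α + ((p : ℤ_[p]) ^ (k + e + 1)) • γ =
              ((p : ℤ_[p]) ^ (2 * k)) • β + ((p : ℤ_[p]) ^ N) • R := by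
            have h6 : 1 + (((p : ℤ_[p]) ^ (k + e)) • α + ((p : ℤ_[p]) ^ (k + e + 1)) • γ) =
                1 + (((p : ℤ_[p]) ^ (2 * k)) • β + ((p : ℤ_[p]) ^ N) • R) := by
              rw [← add_assoc, ← add_assoc]
              exact hR
            exact add_left_cancel h6
          have h5 : (p : ℤ_[p]) ^ (k + e) * (p : ℤ_[p]) ^ (k - e) = (p : ℤ_[p]) ^ (2 * k) := by
            rw [← pow_add]
            congr 1
            omega
          rw [smul_smul, h5, smul_add, smul_add, smul_smul, smul_smul, ← pow_succ, ← pow_succ, h4]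
        have h4 := smul_cancel h3
        have h5 := congrArg (red p n) h4
        rw [map_add, red_smul, toZMod_p, zero_smul, add_zero, red_smul, map_add, red_smul, toZMod_p,
          zero_smul, add_zero, map_pow, toZMod_p] at h5
        rw [hφ, hXcoef, ← hα, h5]
        by_cases hke : k = e
        · have hke' : k - e = 0 := by omega
          rw [if_pos hke, hke', pow_zero, one_smul]
        · rw [if_neg hke, zero_pow (by omega), zero_smul]
          rfl
      rw [h2]
      by_cases hke : k = e
      · rw [if_pos hke]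
        exact hu2
      · rw [if_neg hke]
        exact C.zero_mem
    have hWC : W ≤ C := by
      intro w hw
      obtain ⟨g, rfl⟩ := (hWmem w).1 hw
      exact hval g
    -- the equivariant product on `W`
    obtain ⟨P, hP1, hP2, hP3⟩ := exists_proj (p := p) hD (tr p D _) W hWst
    let θ : Representation (ZMod p) D W :=
      { toFun := fun d => (tr p D _ d).restrict (hWst d)
        map_one' := by
          ext w
          simp
        map_mul' := fun a b => by
          ext w
          simp }
    have hθ : ∀ d (w : W), ((θ d w : W) : D → Matrix (Fin n) (Fin n) (ZMod p)) = tr p D _ d w :=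
      fun _ _ => rfl
    let b : W →ₗ[ZMod p] W →ₗ[ZMod p] W :=
      LinearMap.mk₂ (ZMod p)
        (fun w w' => ⟨P ((w : D → Matrix (Fin n) (Fin n) (ZMod p)) * w' - w' * w), hP1 _⟩)
        (fun a b c => Subtype.ext (by
          show P _ = P _ + P _
          rw [← map_add]
          congr 1
          push_cast
          noncomm_ring))
        (fun r a b => Subtype.ext (by
          show P _ = r • P _
          rw [← map_smul]
          congr 1
          push_cast
          rw [smul_mul_assoc, mul_smul_comm, smul_sub]))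
        (fun a b c => Subtype.ext (by
          show P _ = P _ + P _
          rw [← map_add]
          congr 1
          push_cast
          noncomm_ring))
        (fun r a b => Subtype.ext (by
          show P _ = r • P _
          rw [← map_smul]
          congr 1
          push_cast
          rw [smul_mul_assoc, mul_smul_comm, smul_sub]))
    have hb : ∀ w w' : W, ((b w w' : W) : D → Matrix (Fin n) (Fin n) (ZMod p)) =
        P ((w : D → Matrix (Fin n) (Fin n) (ZMod p)) * w' - w' * w) := fun _ _ => rfl
    have htrm : ∀ (d : D) (u v : D → Matrix (Fin n) (Fin n) (ZMod p)),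
        tr p D _ d u * tr p D _ d v = tr p D _ d (u * v) := fun _ _ _ => rfl
    have hWfin : Finite W := inferInstance
    let f : H →* Multiplicative W :=
      { toFun := fun g => Multiplicative.ofAdd ⟨Multiplicative.toAdd (φ g), hWin g⟩
        map_one' := by
          apply Multiplicative.toAdd.injective
          apply Subtype.ext
          show Multiplicative.toAdd (φ 1) = 0
          rw [map_one, toAdd_one]
        map_mul' := fun g g' => by
          apply Multiplicative.toAdd.injective
          apply Subtype.ext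
          show Multiplicative.toAdd (φ (g * g')) =
            Multiplicative.toAdd (φ g) + Multiplicative.toAdd (φ g')
          rw [map_mul, toAdd_mul] }
    have hf : ∀ g, ((Multiplicative.toAdd (f g) : W) : D → Matrix (Fin n) (Fin n) (ZMod p)) =
        Multiplicative.toAdd (φ g) := fun _ => rfl
    have hfz : ∀ g, φ g = 1 → f g = 1 := by
      intro g hg
      apply Multiplicative.toAdd.injective
      apply Subtype.ext
      rw [hf, hg]
      rfl
    have hsub : Subsingleton W := by
      refine hX W θ f ?_ ?_ ?_ ?_ b ?_ ?_ ?_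
      · intro w
        obtain ⟨g, hg⟩ := (hWmem _).1 (Multiplicative.toAdd w).2
        refine ⟨g, ?_⟩
        apply Multiplicative.toAdd.injective
        apply Subtype.ext
        rw [hf, hg]
      · apply Subgroup.isOpen_of_mem_nhds _ (g := (1 : H))
        have h1 : ∀ δ : D, ∀ᶠ g in nhds (1 : H), X (cjg H (s δ) g) = 1 := by
          intro δ
          have h2 : IsOpen (X.ker : Set H) := layer_open ρ hρ hk1 hk
          have h3 : ∀ᶠ h in nhds (1 : H), X h = 1 := h2.mem_nhds (map_one X)
          have h4 : Filter.Tendsto (cjg H (s δ)) (nhds 1) (nhds 1) := by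
            have := (cjg_continuous H (s δ)).tendsto 1
            rwa [map_one] at this
          exact h4.eventually h3
        filter_upwards [Filter.eventually_all.2 h1] with g hg
        show f g = 1
        apply hfz
        apply Multiplicative.toAdd.injective
        funext δ
        rw [hφ, hg δ]
        rfl
      · intro τ hτ
        apply hfz
        apply Multiplicative.toAdd.injective
        funext δ
        rw [hφ, hXcoef, hcjur (s δ) τ hτ, Units.val_one, coef_one, map_zero]
        rfl
      · intro σ g g' hg'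
        have h1 : g' = cjg H σ g := by
          apply Subtype.ext
          rw [hg', cjg_val]
        apply Subtype.ext
        rw [hf, h1, hφconj, hθ, hf]
      · intro w
        apply Subtype.ext
        rw [hb, sub_self, map_zero]
        rfl
      · intro d w w'
        apply Subtype.ext
        rw [hb, hθ, hθ, hθ, hb, htrm, htrm, ← map_sub, hP3]
      · rw [eq_top_iff]
        rintro w -
        have h1 : (w : D → Matrix (Fin n) (Fin n) (ZMod p)) ∈ C := hWC w.2
        have h2 : ∀ u ∈ C, ∀ hu : P u ∈ W, (⟨P u, hu⟩ : W) ∈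
            Submodule.span (ZMod p) {x : W | ∃ w w', x = b w w'} := by
          intro u hu
          refine Submodule.span_induction ?_ ?_ ?_ ?_ hu
          · rintro _ ⟨w, hw, w', hw', rfl⟩ hu
            exact Submodule.subset_span ⟨⟨w, hw⟩, ⟨w', hw'⟩, rfl⟩
          · intro hu
            have h3 : (⟨P 0, hu⟩ : W) = 0 := Subtype.ext (map_zero P)
            rw [h3]
            exact Submodule.zero_mem _
          · intro x y _ _ hx hy hu
            have h3 : (⟨P (x + y), hu⟩ : W) = ⟨P x, hP1 x⟩ + ⟨P y, hP1 y⟩ :=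
              Subtype.ext (map_add P x y)
            rw [h3]
            exact Submodule.add_mem _ (hx _) (hy _)
          · intro a x _ hx hu
            have h3 : (⟨P (a • x), hu⟩ : W) = a • ⟨P x, hP1 x⟩ :=
              Subtype.ext (map_smul P a x)
            rw [h3]
            exact Submodule.smul_mem _ _ (hx _)
        have h3 := h2 w h1 (hP1 _)
        have h4 : (⟨P w, hP1 _⟩ : W) = w := Subtype.ext (hP2 _ w.2)
        rwa [h4] at h3
    intro g
    apply layer_eq_one ρ hk1 hk
    have h1 : X (cjg H (s 1) g) = 1 := by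
      apply Multiplicative.toAdd.injective
      have h2 : Multiplicative.toAdd (f g) = 0 := Subsingleton.elim _ _
      have h3 : Multiplicative.toAdd (φ g) = 0 := by
        rw [← hf, h2]
        rfl
      have h4 := congrFun h3 1
      rw [hφ] at h4
      exact h4
    have h2 : cjg H (1 : G) g = g := by
      apply Subtype.ext
      rw [cjg_val]
      group
    have h3 : X (cjg H (1 : G) g) = 1 := by
      rw [hXclass (s 1) 1 (by rw [hs, map_one]) g, h1]
    rw [h2] at h3
    exact h3
  have all : ∀ N, ∀ g, Cong (e + N) (ρ g : Matrix (Fin n) (Fin n) ℤ_[p]) := by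
    intro N
    induction N with
    | zero => exact hcong
    | succ N ih => exact step (e + N) (by omega) ih
  intro g
  apply Units.ext
  ext i j
  rw [← PadicInt.ext_of_toZModPow]
  intro N
  obtain ⟨α, hα⟩ := all N g
  rw [hα, Matrix.add_apply, Matrix.smul_apply, smul_eq_mul, map_add, map_mul, map_pow, map_natCast,
    Units.val_one]
  have h0 : ((p : ℕ) : ZMod (p ^ N)) ^ (e + N) = 0 := by
    rw [pow_add, ← Nat.cast_pow p N, ZMod.natCast_self, mul_zero]
  rw [h0, zero_mul, add_zero]

end Pool.Agent.X148.FM
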