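import Pool.Agent.TH831.NA.NA8
import Pool.Agent.X148.FM.Crit

/-!
The module criterion over Noetherian local rings: one layer
-/

set_option autoImplicit false

namespace Pool.Agent.X148.FM

open Pool.Agent.W569.FM Pool.Agent.TH831.NA Pool.Agent.TH831.OE Matrix IsLocalRing

/-- the commutator of two matrices congruent to the identity -/
theorem comm_gen {A : Type} [CommRing A] {n : ℕ} {P : A} (M N : GL (Fin n) A)
    (α β : Matrix (Fin n) (Fin n) A)
    (hM : (M : Matrix (Fin n) (Fin n) A) = 1 + P • α)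
    (hN : (N : Matrix (Fin n) (Fin n) A) = 1 + P • β) :
    ((M * N * M⁻¹ * N⁻¹ : GL (Fin n) A) : Matrix (Fin n) (Fin n) A) =
      1 + (P * P) • ((α * β - β * α) * ((M⁻¹ * N⁻¹ : GL (Fin n) A) : Matrix (Fin n) (Fin n) A)) := by
  have h1 : (M : Matrix (Fin n) (Fin n) A) * N - (N : Matrix (Fin n) (Fin n) A) * M =
      (P * P) • (α * β - β * α) := by
    rw [hM, hN]
    simp only [mul_add, add_mul, smul_mul_assoc, mul_smul_comm, one_mul, mul_one]
    module
  have h2 : ((M * N * M⁻¹ * N⁻¹ : GL (Fin n) A) : Matrix (Fin n) (Fin n) A) =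
      ((M : Matrix (Fin n) (Fin n) A) * N - (N : Matrix (Fin n) (Fin n) A) * M) *
        ((M⁻¹ * N⁻¹ : GL (Fin n) A) : Matrix (Fin n) (Fin n) A) +
      ((N * M * (M⁻¹ * N⁻¹) : GL (Fin n) A) : Matrix (Fin n) (Fin n) A) := by
    rw [mul_assoc (M * N), Units.val_mul, Units.val_mul M N, Units.val_mul (N * M), Units.val_mul N M,
      sub_mul, sub_add_cancel]
  have h3 : (N * M * (M⁻¹ * N⁻¹) : GL (Fin n) A) = 1 := by group
  rw [h2, h3, h1, Units.val_one, add_comm, smul_mul_assoc]

section
variable {p : ℕ} [hp : Fact p.Prime] {A : Type} [CommRing A] {n : ℕ}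

omit hp in
theorem inv_red {B : Type} [CommRing B] (q : A →+* B) (M : GL (Fin n) A)
    (h : q.mapMatrix (M : Matrix (Fin n) (Fin n) A) = 1) :
    q.mapMatrix ((M⁻¹ : GL (Fin n) A) : Matrix (Fin n) (Fin n) A) = 1 := by
  have h1 : q.mapMatrix (M : Matrix (Fin n) (Fin n) A) *
      q.mapMatrix ((M⁻¹ : GL (Fin n) A) : Matrix (Fin n) (Fin n) A) = 1 := by
    rw [← map_mul, ← Units.val_mul, mul_inv_cancel, Units.val_one, map_one]
  rwa [h, one_mul] at h1

/-- **one layer of the criterion** -/
theorem layer_zero {G : Type} [Group G] [TopologicalSpace G] [IsTopologicalGroup G]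
    {D : Type} [Group D] [Finite D] (hD : ¬ p ∣ Nat.card D) (π : G →* D)
    (H : Subgroup G) [H.Normal] [CompactSpace H] (hHπ : ∀ σ, σ ∈ H ↔ π σ = 1)
    (s : D → G) (hs : ∀ d, π (s d) = d)
    (I : Set G) (hI : ∀ σ, ∀ τ ∈ I, σ * τ * σ⁻¹ ∈ I)
    (hX : NoPerf p π H I)
    (ρ : H →* GL (Fin n) A) (hur : ∀ τ : H, (τ : G) ∈ I → ρ τ = 1)
    {k : ℕ} (hk1 : 1 ≤ k) (hreg : ∀ a : A, (p : A) * a = 0 → a = 0)
    (α : H → Matrix (Fin n) (Fin n) A)
    (hα : ∀ g, (ρ g : Matrix (Fin n) (Fin n) A) = 1 + ((p : A) ^ k) • α g)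
    {B : Type} [CommRing B] [Algebra (ZMod p) B] (q : A →+* B) (hqp : q (p : A) = 0)
    (hopen : ∀ᶠ g in nhds (1 : H), q.mapMatrix (α g) = 0) (c : ZMod p)
    (hpow : ∀ g : H, ∃ u ∈ commutator H, ∀ β : D → Matrix (Fin n) (Fin n) A,
      (∀ δ, (ρ (cjg H (s δ) u) : Matrix (Fin n) (Fin n) A) = 1 + ((p : A) ^ (2 * k)) • β δ) →
      ∀ δ, q.mapMatrix (α (cjg H (s δ) g)) = c • q.mapMatrix (β δ)) :
    ∀ g, q.mapMatrix (α g) = 0 := by
  classical
  have hcjur : ∀ (σ : G) (τ : H), (τ : G) ∈ I → ρ (cjg H σ τ) = 1 := by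
    intro σ τ hτ
    refine hur (cjg H σ τ) ?_
    rw [cjg_val]
    exact hI _ _ hτ
  have hqk : ∀ j, 1 ≤ j → q ((p : A) ^ j) = 0 := fun j hj => by
    rw [map_pow, hqp, zero_pow (by omega)]
  have hα1 : ∀ g, ρ g = 1 → α g = 0 := by
    intro g hg
    have h1 := hα g
    rw [hg, Units.val_one, left_eq_add] at h1
    exact cancelM hreg k (by rw [h1, smul_zero])
  have hαm : ∀ g h, α (g * h) = α g + α h + ((p : A) ^ k) • (α g * α h) := by
    intro g h
    apply cancelM hreg k
    have h1 := hα (g * h)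
    rw [map_mul, Units.val_mul, hα g, hα h] at h1
    have h2 : (1 + ((p : A) ^ k) • α g) * (1 + ((p : A) ^ k) • α h) =
        1 + ((p : A) ^ k) • (α g + α h + ((p : A) ^ k) • (α g * α h)) := by
      simp only [mul_add, add_mul, smul_mul_assoc, mul_smul_comm, one_mul, mul_one]
      module
    rw [h2] at h1
    exact (add_left_cancel h1).symm
  let X : H →* Multiplicative (Matrix (Fin n) (Fin n) B) :=
    { toFun := fun g => Multiplicative.ofAdd (q.mapMatrix (α g))
      map_one' := by rw [hα1 1 (map_one ρ), map_zero, ofAdd_zero]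
      map_mul' := fun g h => by
        have h1 : q.mapMatrix (α (g * h)) = q.mapMatrix (α g) + q.mapMatrix (α h) := by
          rw [hαm, map_add, map_add, map_smulM, hqk k hk1, zero_smul, add_zero]
        rw [h1, ofAdd_add] }
  have hXcoef : ∀ g, Multiplicative.toAdd (X g) = q.mapMatrix (α g) := fun g => rfl
  have hXconj : ∀ a b : H, X (a * b * a⁻¹) = X b := by
    intro a b
    rw [map_mul, map_mul, map_inv, mul_comm (X a), mul_inv_cancel_right]
  have hXclass : ∀ (σ σ' : G), π σ = π σ' → ∀ g : H, X (cjg H σ' g) = X (cjg H σ g) := by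
    intro σ σ' hσ g
    have hh : σ⁻¹ * σ' ∈ H := by
      rw [hHπ, map_mul, map_inv, hσ, inv_mul_cancel]
    have h1 : σ' = σ * ((⟨σ⁻¹ * σ', hh⟩ : H) : G) := by
      show σ' = σ * (σ⁻¹ * σ')
      group
    conv_lhs => rw [h1]
    rw [cjg_mul, cjg_mem, map_mul (cjg H σ), map_mul (cjg H σ), map_inv (cjg H σ), hXconj]
  -- the functions on `D`
  let φ : H →* Multiplicative (D → Matrix (Fin n) (Fin n) B) :=
    { toFun := fun g => Multiplicative.ofAdd fun δ => Multiplicative.toAdd (X (cjg H (s δ) g))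
      map_one' := by
        apply Multiplicative.toAdd.injective
        funext δ
        show Multiplicative.toAdd (X (cjg H (s δ) 1)) = 0
        rw [map_one, map_one, toAdd_one]
      map_mul' := fun g g' => by
        apply Multiplicative.toAdd.injective
        funext δ
        show Multiplicative.toAdd (X (cjg H (s δ) (g * g'))) =
          Multiplicative.toAdd (X (cjg H (s δ) g)) + Multiplicative.toAdd (X (cjg H (s δ) g'))
        rw [map_mul, map_mul, toAdd_mul] }
  have hφ : ∀ g δ, Multiplicative.toAdd (φ g) δ = Multiplicative.toAdd (X (cjg H (s δ) g)) :=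
    fun _ _ => rfl
  have hφconj : ∀ (σ : G) (g : H), Multiplicative.toAdd (φ (cjg H σ g)) =
      tr p D _ (π σ) (Multiplicative.toAdd (φ g)) := by
    intro σ g
    funext δ
    rw [hφ, tr_apply, hφ, ← cjg_mul]
    rw [hXclass (s (δ * π σ)) (s δ * σ) (by rw [hs, map_mul, hs]) g]
  let W : Submodule (ZMod p) (D → Matrix (Fin n) (Fin n) B) :=
    AddSubgroup.toZModSubmodule p (MonoidHom.toAdditiveLeft φ).range
  have hWmem : ∀ u, u ∈ W ↔ ∃ g : H, Multiplicative.toAdd (φ g) = u := by
    intro u
    constructor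
    · rintro ⟨g, hg⟩
      exact ⟨Additive.toMul g, hg⟩
    · rintro ⟨g, hg⟩
      exact ⟨Additive.ofMul g, hg⟩
  have hWin : ∀ g : H, Multiplicative.toAdd (φ g) ∈ W := fun g => (hWmem _).2 ⟨g, rfl⟩
  have hWst : ∀ d, ∀ w ∈ W, tr p D _ d w ∈ W := by
    intro d w hw
    obtain ⟨g, rfl⟩ := (hWmem w).1 hw
    refine (hWmem _).2 ⟨cjg H (s d) g, ?_⟩
    rw [hφconj, hs]
  -- open kernel
  have hφo : ∀ᶠ g in nhds (1 : H), φ g = 1 := by
    have h1 : ∀ δ : D, ∀ᶠ g in nhds (1 : H), X (cjg H (s δ) g) = 1 := by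
      intro δ
      have h3 : ∀ᶠ h in nhds (1 : H), X h = 1 := by
        filter_upwards [hopen] with h hh
        apply Multiplicative.toAdd.injective
        rw [hXcoef, hh]
        rfl
      have h4 : Filter.Tendsto (cjg H (s δ)) (nhds 1) (nhds 1) := by
        have := (cjg_continuous H (s δ)).tendsto 1
        rwa [map_one] at this
      exact h4.eventually h3
    filter_upwards [Filter.eventually_all.2 h1] with g hg
    apply Multiplicative.toAdd.injective
    funext δ
    rw [hφ, hg δ]
    rfl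
  have hφko : IsOpen (φ.ker : Set H) := by
    apply Subgroup.isOpen_of_mem_nhds _ (g := (1 : H))
    filter_upwards [hφo] with g hg
    exact hg
  have hWfin : Finite W := by
    have h1 : Finite (H ⧸ φ.ker) := Subgroup.quotient_finite_of_isOpen _ hφko
    have h2 : Finite φ.range :=
      Finite.of_equiv _ (QuotientGroup.quotientKerEquivRange φ).toEquiv
    have h3 : (Set.range φ).Finite := Set.finite_coe_iff.1 h2
    have h4 : ((W : Set (D → Matrix (Fin n) (Fin n) B))).Finite := by
      refine (h3.image Multiplicative.toAdd).subset ?_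
      intro u hu
      obtain ⟨g, rfl⟩ := (hWmem u).1 hu
      exact ⟨φ g, ⟨g, rfl⟩, rfl⟩
    exact h4
  -- the commutators
  let C : Submodule (ZMod p) (D → Matrix (Fin n) (Fin n) B) :=
    Submodule.span (ZMod p) {x | ∃ w ∈ W, ∃ w' ∈ W, x = w * w' - w' * w}
  let good : Subgroup H :=
    { carrier := {u | ∃ β : D → Matrix (Fin n) (Fin n) A,
        (∀ δ, (ρ (cjg H (s δ) u) : Matrix (Fin n) (Fin n) A) = 1 + ((p : A) ^ (2 * k)) • β δ) ∧
          (fun δ => q.mapMatrix (β δ)) ∈ C}
      one_mem' := by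
        refine ⟨fun _ => 0, fun δ => ?_, ?_⟩
        · rw [map_one, map_one, Units.val_one, smul_zero, add_zero]
        · have h1 : (fun δ : D => q.mapMatrix (0 : Matrix (Fin n) (Fin n) A)) = 0 := by
            funext δ
            rw [map_zero]
            rfl
          rw [h1]
          exact C.zero_mem
      mul_mem' := by
        rintro u v ⟨β, hu1, hu2⟩ ⟨β', hv1, hv2⟩
        refine ⟨fun δ => β δ + β' δ + ((p : A) ^ (2 * k)) • (β δ * β' δ), fun δ => ?_, ?_⟩
        · rw [map_mul, map_mul, Units.val_mul, hu1, hv1]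
          simp only [mul_add, add_mul, smul_mul_assoc, mul_smul_comm, one_mul, mul_one]
          module
        · have h1 : (fun δ => q.mapMatrix (β δ + β' δ + ((p : A) ^ (2 * k)) • (β δ * β' δ))) =
              (fun δ => q.mapMatrix (β δ)) + (fun δ => q.mapMatrix (β' δ)) := by
            funext δ
            rw [Pi.add_apply, map_add, map_add, map_smulM, hqk _ (by omega), zero_smul, add_zero]
          rw [h1]
          exact C.add_mem hu2 hv2
      inv_mem' := by
        rintro u ⟨β, hu1, hu2⟩
        refine ⟨fun δ => -(β δ * (((ρ (cjg H (s δ) u))⁻¹ : GL (Fin n) A) :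
          Matrix (Fin n) (Fin n) A)), fun δ => ?_, ?_⟩
        · rw [map_inv, map_inv, smul_neg, ← smul_mul_assoc]
          have h1 : ((p : A) ^ (2 * k)) • β δ =
              (ρ (cjg H (s δ) u) : Matrix (Fin n) (Fin n) A) - 1 := by
            rw [hu1, add_sub_cancel_left]
          rw [h1, sub_mul, ← Units.val_mul, mul_inv_cancel, Units.val_one, one_mul]
          abel
        · have h1 : (fun δ => q.mapMatrix (-(β δ * (((ρ (cjg H (s δ) u))⁻¹ : GL (Fin n) A) :
              Matrix (Fin n) (Fin n) A)))) = -(fun δ => q.mapMatrix (β δ)) := by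
            funext δ
            rw [Pi.neg_apply, map_neg, map_mul, inv_red q, mul_one]
            rw [hα, map_add, map_one, map_smulM, hqk k hk1, zero_smul, add_zero]
          rw [h1]
          exact C.neg_mem hu2 }
  have hcommgood : commutator H ≤ good := by
    rw [commutator_def, Subgroup.commutator_le]
    intro g _ h _
    have h2 : ∀ δ, cjg H (s δ) (g * h * g⁻¹ * h⁻¹) = cjg H (s δ) g * cjg H (s δ) h *
        (cjg H (s δ) g)⁻¹ * (cjg H (s δ) h)⁻¹ := by
      intro δ
      rw [map_mul, map_mul, map_mul, map_inv, map_inv]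
    refine ⟨fun δ => (α (cjg H (s δ) g) * α (cjg H (s δ) h) - α (cjg H (s δ) h) *
      α (cjg H (s δ) g)) * (((ρ (cjg H (s δ) g))⁻¹ * (ρ (cjg H (s δ) h))⁻¹ : GL (Fin n) A) :
        Matrix (Fin n) (Fin n) A), fun δ => ?_, ?_⟩
    · rw [commutatorElement_def, h2, map_mul, map_mul, map_mul, map_inv, map_inv,
        comm_gen _ _ _ _ (hα (cjg H (s δ) g)) (hα (cjg H (s δ) h)), ← pow_add, two_mul]
    · refine Submodule.subset_span ⟨Multiplicative.toAdd (φ g), hWin g,
        Multiplicative.toAdd (φ h), hWin h, ?_⟩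
      funext δ
      have h3 : ∀ x : H, q.mapMatrix (((ρ x)⁻¹ : GL (Fin n) A) : Matrix (Fin n) (Fin n) A) = 1 := by
        intro x
        apply inv_red
        rw [hα, map_add, map_one, map_smulM, hqk k hk1, zero_smul, add_zero]
      dsimp only
      rw [Units.val_mul, map_mul, map_mul, h3, h3, mul_one, mul_one, map_sub, map_mul, map_mul]
      rfl
  have hWC : W ≤ C := by
    intro w hw
    obtain ⟨g, rfl⟩ := (hWmem w).1 hw
    obtain ⟨u, hu, hgu⟩ := hpow g
    obtain ⟨β, hβ1, hβ2⟩ := hcommgood hu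
    have h1 : Multiplicative.toAdd (φ g) = c • (fun δ => q.mapMatrix (β δ)) := by
      funext δ
      rw [hφ, hXcoef, hgu β hβ1 δ]
      rfl
    rw [h1]
    exact C.smul_mem _ hβ2
  -- the equivariant product on `W`
  obtain ⟨P, hP1, hP2, hP3⟩ := exists_proj (p := p) hD (tr p D _) W hWst
  let θ : Representation (ZMod p) D W :=
    { toFun := fun d => (tr p D _ d).restrict (hWst d)
      map_one' := by
        ext w
        simp
      map_mul' := fun a b => by
        ext w
        simp }
  have hθ : ∀ d (w : W), ((θ d w : W) : D → Matrix (Fin n) (Fin n) B) = tr p D _ d w :=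
    fun _ _ => rfl
  let b : W →ₗ[ZMod p] W →ₗ[ZMod p] W :=
    LinearMap.mk₂ (ZMod p)
      (fun w w' => ⟨P ((w : D → Matrix (Fin n) (Fin n) B) * w' - w' * w), hP1 _⟩)
      (fun a b c => Subtype.ext (by
        show P _ = P _ + P _
        rw [← map_add]
        congr 1
        push_cast
        noncomm_ring))
      (fun r a b => Subtype.ext (by
        show P _ = r • P _
        rw [← map_smul]
        congr 1
        push_cast
        rw [smul_mul_assoc, mul_smul_comm, smul_sub]))
      (fun a b c => Subtype.ext (by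
        show P _ = P _ + P _
        rw [← map_add]
        congr 1
        push_cast
        noncomm_ring))
      (fun r a b => Subtype.ext (by
        show P _ = r • P _
        rw [← map_smul]
        congr 1
        push_cast
        rw [smul_mul_assoc, mul_smul_comm, smul_sub]))
  have hb : ∀ w w' : W, ((b w w' : W) : D → Matrix (Fin n) (Fin n) B) =
      P ((w : D → Matrix (Fin n) (Fin n) B) * w' - w' * w) := fun _ _ => rfl
  have htrm : ∀ (d : D) (u v : D → Matrix (Fin n) (Fin n) B),
      tr p D _ d u * tr p D _ d v = tr p D _ d (u * v) := fun _ _ _ => rfl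
  let f : H →* Multiplicative W :=
    { toFun := fun g => Multiplicative.ofAdd ⟨Multiplicative.toAdd (φ g), hWin g⟩
      map_one' := by
        apply Multiplicative.toAdd.injective
        apply Subtype.ext
        show Multiplicative.toAdd (φ 1) = 0
        rw [map_one, toAdd_one]
      map_mul' := fun g g' => by
        apply Multiplicative.toAdd.injective
        apply Subtype.ext
        show Multiplicative.toAdd (φ (g * g')) =
          Multiplicative.toAdd (φ g) + Multiplicative.toAdd (φ g')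
        rw [map_mul, toAdd_mul] }
  have hf : ∀ g, ((Multiplicative.toAdd (f g) : W) : D → Matrix (Fin n) (Fin n) B) =
      Multiplicative.toAdd (φ g) := fun _ => rfl
  have hfz : ∀ g, φ g = 1 → f g = 1 := by
    intro g hg
    apply Multiplicative.toAdd.injective
    apply Subtype.ext
    rw [hf, hg]
    rfl
  have hsub : Subsingleton W := by
    refine hX W θ f ?_ ?_ ?_ ?_ b ?_ ?_ ?_
    · intro w
      obtain ⟨g, hg⟩ := (hWmem _).1 (Multiplicative.toAdd w).2
      refine ⟨g, ?_⟩
      apply Multiplicative.toAdd.injective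
      apply Subtype.ext
      rw [hf, hg]
    · apply Subgroup.isOpen_of_mem_nhds _ (g := (1 : H))
      filter_upwards [hφo] with g hg
      exact hfz g hg
    · intro τ hτ
      apply hfz
      apply Multiplicative.toAdd.injective
      funext δ
      rw [hφ, hXcoef, hα1 _ (hcjur (s δ) τ hτ), map_zero]
      rfl
    · intro σ g g' hg'
      have h1 : g' = cjg H σ g := by
        apply Subtype.ext
        rw [hg', cjg_val]
      apply Subtype.ext
      rw [hf, h1, hφconj, hθ, hf]
    · intro w
      apply Subtype.ext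
      rw [hb, sub_self, map_zero]
      rfl
    · intro d w w'
      apply Subtype.ext
      rw [hb, hθ, hθ, hθ, hb, htrm, htrm, ← map_sub, hP3]
    · rw [eq_top_iff]
      rintro w -
      have h1 : (w : D → Matrix (Fin n) (Fin n) B) ∈ C := hWC w.2
      have h2 : ∀ u ∈ C, ∀ hu : P u ∈ W, (⟨P u, hu⟩ : W) ∈
          Submodule.span (ZMod p) {x : W | ∃ w w', x = b w w'} := by
        intro u hu
        refine Submodule.span_induction ?_ ?_ ?_ ?_ hu
        · rintro _ ⟨w, hw, w', hw', rfl⟩ hu
          exact Submodule.subset_span ⟨⟨w, hw⟩, ⟨w', hw'⟩, rfl⟩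
        · intro hu
          have h3 : (⟨P 0, hu⟩ : W) = 0 := Subtype.ext (map_zero P)
          rw [h3]
          exact Submodule.zero_mem _
        · intro x y _ _ hx hy hu
          have h3 : (⟨P (x + y), hu⟩ : W) = ⟨P x, hP1 x⟩ + ⟨P y, hP1 y⟩ :=
            Subtype.ext (map_add P x y)
          rw [h3]
          exact Submodule.add_mem _ (hx _) (hy _)
        · intro a x _ hx hu
          have h3 : (⟨P (a • x), hu⟩ : W) = a • ⟨P x, hP1 x⟩ :=
            Subtype.ext (map_smul P a x)
          rw [h3]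
          exact Submodule.smul_mem _ _ (hx _)
      have h3 := h2 w h1 (hP1 _)
      have h4 : (⟨P w, hP1 _⟩ : W) = w := Subtype.ext (hP2 _ w.2)
      rwa [h4] at h3
  intro g
  have h1 : X (cjg H (s 1) g) = 1 := by
    apply Multiplicative.toAdd.injective
    have h2 : Multiplicative.toAdd (f g) = 0 := Subsingleton.elim _ _
    have h3 : Multiplicative.toAdd (φ g) = 0 := by
      rw [← hf, h2]
      rfl
    have h4 := congrFun h3 1
    rw [hφ] at h4
    exact h4
  have h2 : cjg H (1 : G) g = g := by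
    apply Subtype.ext
    rw [cjg_val]
    group
  have h3 : X (cjg H (1 : G) g) = 1 := by
    rw [hXclass (s 1) 1 (by rw [hs, map_one]) g, h1]
  rw [h2] at h3
  have h4 := congrArg Multiplicative.toAdd h3
  rw [hXcoef] at h4
  exact h4

end

end Pool.Agent.X148.FM
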