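import Pool.Agent.X148.FM.NCrit

/-!
The module criterion over Noetherian local rings without `p`-torsion
-/

set_option autoImplicit false

namespace Pool.Agent.X148.FM

open Pool.Agent.W569.FM Pool.Agent.TH831.NA Pool.Agent.TH831.OE Matrix IsLocalRing

section
variable {p : ℕ} [hp : Fact p.Prime]
  {H : Type} [Group H] [TopologicalSpace H] [IsTopologicalGroup H] [CompactSpace H]

/-- `p ^ e`-th powers are products of commutators modulo the kernel -/
theorem pow_comm {E : Type} [Group E] (Φ : H →* E) (ho : IsOpen (Φ.ker : Set H))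
    (hpE : ∀ g, ∃ N, Φ g ^ p ^ N = 1) (Ur : Set H) (hur : ∀ τ ∈ Ur, Φ τ = 1) (e : ℕ)
    (he : ∀ (E : Type) [CommGroup E] [Finite E], IsPGroup p E → ∀ f : H →* E,
      IsOpen (f.ker : Set H) → (∀ τ ∈ Ur, f τ = 1) → ∀ g, f g ^ (p ^ e) = 1) (g : H) :
    ∃ u ∈ commutator H, Φ (g ^ (p ^ e)) = Φ u := by
  have hΦfin : Finite Φ.range := by
    have h1 : Finite (H ⧸ Φ.ker) := Subgroup.quotient_finite_of_isOpen _ ho
    exact Finite.of_equiv _ (QuotientGroup.quotientKerEquivRange Φ).toEquiv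
  have hΦp : IsPGroup p Φ.range := by
    rintro ⟨_, g, rfl⟩
    obtain ⟨N, hN⟩ := hpE g
    exact ⟨N, Subtype.ext hN⟩
  let ab : H →* Abelianization Φ.range := Abelianization.of.comp Φ.rangeRestrict
  have : Finite (Abelianization Φ.range) := inferInstance
  have habp : IsPGroup p (Abelianization Φ.range) :=
    hΦp.of_surjective Abelianization.of QuotientGroup.mk_surjective
  have hab1 : ∀ g, Φ g = 1 → ab g = 1 := by
    intro g hg
    have h1 : Φ.rangeRestrict g = 1 := Subtype.ext hg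
    show Abelianization.of (Φ.rangeRestrict g) = 1
    rw [h1, map_one]
  have habo : IsOpen (ab.ker : Set H) :=
    Subgroup.isOpen_mono (H₁ := Φ.ker) (fun g hg => hab1 g hg) ho
  have h1 := he (Abelianization Φ.range) habp ab habo (fun τ hτ => hab1 τ (hur τ hτ)) g
  rw [← map_pow] at h1
  have h2 : Φ.rangeRestrict (g ^ p ^ e) ∈ commutator Φ.range := by
    have h3 : Abelianization.of (Φ.rangeRestrict (g ^ p ^ e)) = 1 := h1
    rwa [← MonoidHom.mem_ker, Abelianization.ker_of] at h3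
  have h3 : (commutator H).map Φ.rangeRestrict = commutator Φ.range := by
    rw [map_commutator_eq, MonoidHom.range_eq_top.2 Φ.rangeRestrict_surjective,
      commutator_def]
  rw [← h3] at h2
  obtain ⟨u, hu, hu'⟩ := h2
  exact ⟨u, hu, (congrArg Subtype.val hu').symm⟩

end

section
variable {p : ℕ} [hp : Fact p.Prime] {A : Type} [CommRing A] [IsLocalRing A] {n : ℕ}

theorem pow_red (hpA : (p : A) ∈ maximalIdeal A) {k : ℕ} (hk : 1 ≤ k) (M : GL (Fin n) A)
    (α : Matrix (Fin n) (Fin n) A)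
    (hM : (M : Matrix (Fin n) (Fin n) A) = 1 + ((p : A) ^ k) • α) (N : ℕ) :
    GeneralLinearGroup.map (Ideal.Quotient.mk (maximalIdeal A ^ N)) M ^ p ^ N = 1 := by
  rw [← map_pow]
  refine mem_cong.2 ?_
  rw [Units.val_pow_eq_pow_val]
  have h1 : MJ (maximalIdeal A) ((M : Matrix (Fin n) (Fin n) A) - 1) := by
    intro i j
    rw [hM, add_sub_cancel_left, Matrix.smul_apply, smul_eq_mul]
    exact Ideal.mul_mem_right _ _ (Ideal.pow_mem_of_mem _ hpA k hk)
  exact (MJ.iter hp.out hpA h1 N).mono (Ideal.pow_le_pow_right (Nat.le_succ N))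

variable [IsNoetherianRing A]

/-- **one step** of the filtration by the powers of `p` -/
theorem step_gen {G : Type} [Group G] [TopologicalSpace G] [IsTopologicalGroup G]
    {D : Type} [Group D] [Finite D] (hD : ¬ p ∣ Nat.card D) (π : G →* D)
    (H : Subgroup G) [H.Normal] [CompactSpace H] (hHπ : ∀ σ, σ ∈ H ↔ π σ = 1)
    (s : D → G) (hs : ∀ d, π (s d) = d)
    (I : Set G) (hI : ∀ σ, ∀ τ ∈ I, σ * τ * σ⁻¹ ∈ I)
    (e : ℕ) (he1 : 1 ≤ e) (hpe : 2 < p ^ e)
    (he : ∀ (E : Type) [CommGroup E] [Finite E], IsPGroup p E → ∀ f : H →* E,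
      IsOpen (f.ker : Set H) → (∀ τ : H, (τ : G) ∈ I → f τ = 1) → ∀ g, f g ^ (p ^ e) = 1)
    (hX : NoPerf p π H I)
    (hpA : (p : A) ∈ maximalIdeal A) (hreg : ∀ a : A, (p : A) * a = 0 → a = 0)
    (ρ : H →* GL (Fin n) A)
    (hcts : ∀ N : ℕ, ∀ᶠ g in nhds (1 : H), MJ (maximalIdeal A ^ N)
      ((ρ g : Matrix (Fin n) (Fin n) A) - 1))
    (hur : ∀ τ : H, (τ : G) ∈ I → ρ τ = 1) {k : ℕ} (hek : e ≤ k)
    (hk : ∀ g, ∃ α : Matrix (Fin n) (Fin n) A,
      (ρ g : Matrix (Fin n) (Fin n) A) = 1 + ((p : A) ^ k) • α) :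
    ∀ g, ∃ α : Matrix (Fin n) (Fin n) A,
      (ρ g : Matrix (Fin n) (Fin n) A) = 1 + ((p : A) ^ (k + 1)) • α := by
  classical
  have hk1 : 1 ≤ k := he1.trans hek
  have hpk : 2 < p ^ k := lt_of_lt_of_le hpe (Nat.pow_le_pow_right hp.out.pos hek)
  have hcjur : ∀ (σ : G) (τ : H), (τ : G) ∈ I → ρ (cjg H σ τ) = 1 := by
    intro σ τ hτ
    refine hur (cjg H σ τ) ?_
    rw [cjg_val]
    exact hI _ _ hτ
  choose α hα using hk
  obtain ⟨R, iR, iL, iN, iA, q0, hq0s, hq0⟩ := exists_red hpA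
  have hq0p : q0 (p : A) = 0 := (hq0 _).2 ⟨1, by rw [mul_one]⟩
  have hq0l : IsLocalHom q0 := IsLocalHom.of_surjective _ hq0s
  -- the layer modulo the powers of the maximal ideal
  have key : ∀ N : ℕ, ∀ g, ((Ideal.Quotient.mk (maximalIdeal R ^ N)).comp q0).mapMatrix (α g) = 0 := by
    intro N
    set q : A →+* R ⧸ maximalIdeal R ^ N := (Ideal.Quotient.mk (maximalIdeal R ^ N)).comp q0 with hq
    have hqp : q (p : A) = 0 := by rw [hq, RingHom.comp_apply, hq0p, map_zero]
    have hqm : ∀ a ∈ maximalIdeal A ^ N, q a = 0 := fun a ha =>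
      Ideal.Quotient.eq_zero_iff_mem.2 (map_max_pow q0 ha)
    have hqM : ∀ X : Matrix (Fin n) (Fin n) A, MJ (maximalIdeal A ^ N) X → q.mapMatrix X = 0 := by
      intro X hX
      ext i j
      rw [RingHom.mapMatrix_apply, Matrix.map_apply, Matrix.zero_apply]
      exact hqm _ (hX i j)
    refine layer_zero hD π H hHπ s hs I hI hX ρ hur hk1 hreg α hα q hqp ?_
      (if k = e then 1 else 0) ?_
    · obtain ⟨N', hN'⟩ := artin hreg k N
      filter_upwards [hcts N'] with g hg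
      apply hqM
      intro i j
      apply hN'
      have h1 := hg i j
      rwa [hα g, add_sub_cancel_left, Matrix.smul_apply, smul_eq_mul] at h1
    · intro g
      obtain ⟨N', hN'⟩ := artin hreg (k + e) N
      let r : GL (Fin n) A →* GL (Fin n) (A ⧸ maximalIdeal A ^ N') :=
        GeneralLinearGroup.map (Ideal.Quotient.mk (maximalIdeal A ^ N'))
      let Φ : H →* (D → GL (Fin n) (A ⧸ maximalIdeal A ^ N')) :=
        MonoidHom.pi fun δ => (r.comp ρ).comp (cjg H (s δ))
      have hΦ : ∀ g δ, Φ g δ = r (ρ (cjg H (s δ) g)) := fun _ _ => rfl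
      have hΦo : IsOpen (Φ.ker : Set H) := by
        apply Subgroup.isOpen_of_mem_nhds _ (g := (1 : H))
        have h1 : ∀ δ : D, ∀ᶠ g in nhds (1 : H), Φ g δ = 1 := by
          intro δ
          have h4 : Filter.Tendsto (cjg H (s δ)) (nhds 1) (nhds 1) := by
            have := (cjg_continuous H (s δ)).tendsto 1
            rwa [map_one] at this
          filter_upwards [h4.eventually (hcts N')] with g hg
          rw [hΦ]
          exact mem_cong.2 hg
        filter_upwards [Filter.eventually_all.2 h1] with g hg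
        show Φ g = 1
        funext δ
        exact hg δ
      obtain ⟨u, hu, hgu⟩ := pow_comm (p := p) Φ hΦo (fun g => ⟨N', by
        funext δ
        exact pow_red hpA hk1 _ _ (hα (cjg H (s δ) g)) N'⟩) {τ : H | (τ : G) ∈ I}
        (fun τ hτ => by
          funext δ
          rw [hΦ, hcjur (s δ) τ hτ, map_one]
          rfl) e he g
      refine ⟨u, hu, fun β hβ δ => ?_⟩
      have h2 := congrFun hgu δ
      rw [hΦ, hΦ] at h2
      obtain ⟨γ, -, hγ⟩ := matN hk1 hpk (α (cjg H (s δ) g)) e 1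
      rw [mul_one, Nat.cast_one, ← hα] at hγ
      have h3 : MJ (maximalIdeal A ^ N) (α (cjg H (s δ) g) * (1 + (p : A) • γ) -
          ((p : A) ^ (k - e)) • β δ) := by
        intro i j
        apply hN'
        have h4 := congrFun (congrFun (congrArg (fun M : GL (Fin n) (A ⧸ maximalIdeal A ^ N') =>
          (M : Matrix (Fin n) (Fin n) (A ⧸ maximalIdeal A ^ N'))) h2) i) j
        have h5 := Ideal.Quotient.eq.1 h4
        have h6 : (p : A) ^ (k + e) * (α (cjg H (s δ) g) * (1 + (p : A) • γ) -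
            ((p : A) ^ (k - e)) • β δ) i j =
            (ρ (cjg H (s δ) (g ^ p ^ e)) : Matrix (Fin n) (Fin n) A) i j -
            (ρ (cjg H (s δ) u) : Matrix (Fin n) (Fin n) A) i j := by
          rw [map_pow, map_pow, Units.val_pow_eq_pow_val, hγ, hβ δ, Matrix.sub_apply, mul_sub,
            Matrix.smul_apply, smul_eq_mul, ← mul_assoc, ← pow_add,
            show k + e + (k - e) = 2 * k by omega]
          simp only [Matrix.add_apply, Matrix.smul_apply, smul_eq_mul]
          ring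
        rw [h6]
        exact h5
      have h4 := hqM _ h3
      rw [map_sub, sub_eq_zero, map_mul, map_add, map_one, map_smulM, hqp, zero_smul, add_zero,
        mul_one, map_smulM] at h4
      rw [h4]
      by_cases hke : k = e
      · rw [if_pos hke, hke, Nat.sub_self, pow_zero, map_one, one_smul, one_smul]
      · rw [if_neg hke, map_pow, hqp, zero_pow (by omega), zero_smul, zero_smul]
  intro g
  have hg0 : ∀ i j, q0 (α g i j) = 0 := by
    intro i j
    have h1 : q0 (α g i j) ∈ ⨅ N : ℕ, maximalIdeal R ^ N := by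
      rw [Ideal.mem_iInf]
      intro N
      have h2 := congrFun (congrFun (key N g) i) j
      rw [RingHom.mapMatrix_apply, Matrix.map_apply, Matrix.zero_apply, RingHom.comp_apply] at h2
      exact Ideal.Quotient.eq_zero_iff_mem.1 h2
    rw [Ideal.iInf_pow_eq_bot_of_isLocalRing _ (maximalIdeal.isMaximal R).ne_top] at h1
    exact h1
  have hb : ∀ i j, ∃ b, α g i j = (p : A) * b := fun i j => (hq0 _).1 (hg0 i j)
  choose b hb using hb
  refine ⟨Matrix.of b, ?_⟩
  rw [hα g]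
  congr 1
  ext i j
  rw [Matrix.smul_apply, Matrix.smul_apply, Matrix.of_apply, hb i j, smul_eq_mul, smul_eq_mul,
    pow_succ, mul_assoc]

/-- **triviality** over a Noetherian local ring without `p`-torsion -/
theorem triv_gen {G : Type} [Group G] [TopologicalSpace G] [IsTopologicalGroup G]
    {D : Type} [Group D] [Finite D] (hD : ¬ p ∣ Nat.card D) (π : G →* D)
    (hπ : Function.Surjective π)
    (H : Subgroup G) [CompactSpace H] (hHπ : ∀ σ, σ ∈ H ↔ π σ = 1)
    (I : Set G) (hI : ∀ σ, ∀ τ ∈ I, σ * τ * σ⁻¹ ∈ I)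
    (e : ℕ) (hpe : 2 < p ^ e)
    (he : ∀ (E : Type) [CommGroup E] [Finite E], IsPGroup p E → ∀ f : H →* E,
      IsOpen (f.ker : Set H) → (∀ τ : H, (τ : G) ∈ I → f τ = 1) → ∀ g, f g ^ (p ^ e) = 1)
    (hX : NoPerf p π H I)
    (hpA : (p : A) ∈ maximalIdeal A) (hreg : ∀ a : A, (p : A) * a = 0 → a = 0)
    (ρ : H →* GL (Fin n) A)
    (hcts : ∀ N : ℕ, ∀ᶠ g in nhds (1 : H), MJ (maximalIdeal A ^ N)
      ((ρ g : Matrix (Fin n) (Fin n) A) - 1))
    (hur : ∀ τ : H, (τ : G) ∈ I → ρ τ = 1)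
    (hcong : ∀ g, ∃ α : Matrix (Fin n) (Fin n) A,
      (ρ g : Matrix (Fin n) (Fin n) A) = 1 + ((p : A) ^ e) • α) : ∀ g, ρ g = 1 := by
  have hnorm : H.Normal := by
    constructor
    intro h hh g
    rw [hHπ, map_mul, map_mul, (hHπ h).1 hh, mul_one, map_inv, mul_inv_cancel]
  have he1 : 1 ≤ e := by
    by_contra h
    have h0 : e = 0 := by omega
    rw [h0, pow_zero] at hpe
    omega
  choose s hs using hπ
  have all : ∀ N, ∀ g, ∃ α : Matrix (Fin n) (Fin n) A,
      (ρ g : Matrix (Fin n) (Fin n) A) = 1 + ((p : A) ^ (e + N)) • α := by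
    intro N
    induction N with
    | zero => exact hcong
    | succ N ih =>
      exact step_gen hD π H hHπ s hs I hI e he1 hpe he hX hpA hreg ρ hcts hur (k := e + N)
        (by omega) ih
  intro g
  apply Units.ext
  rw [Units.val_one, ← sub_eq_zero]
  ext i j
  have h1 : ((ρ g : Matrix (Fin n) (Fin n) A) - 1) i j ∈ ⨅ N : ℕ, maximalIdeal A ^ N := by
    rw [Ideal.mem_iInf]
    intro N
    obtain ⟨α, hα⟩ := all N g
    rw [hα, add_sub_cancel_left, Matrix.smul_apply, smul_eq_mul]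
    exact Ideal.pow_le_pow_right (by omega) (Ideal.mul_mem_right _ _ (Ideal.pow_mem_pow hpA (e + N)))
  rw [Ideal.iInf_pow_eq_bot_of_isLocalRing _ (maximalIdeal.isMaximal A).ne_top] at h1
  exact h1

/-- the entries of `ρ g - 1` are `p`-power torsion -/
theorem tor_gen {G : Type} [Group G] [TopologicalSpace G] [IsTopologicalGroup G]
    {D : Type} [Group D] [Finite D] (hD : ¬ p ∣ Nat.card D) (π : G →* D)
    (hπ : Function.Surjective π)
    (H : Subgroup G) [CompactSpace H] (hHπ : ∀ σ, σ ∈ H ↔ π σ = 1)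
    (I : Set G) (hI : ∀ σ, ∀ τ ∈ I, σ * τ * σ⁻¹ ∈ I)
    (e : ℕ) (hpe : 2 < p ^ e)
    (he : ∀ (E : Type) [CommGroup E] [Finite E], IsPGroup p E → ∀ f : H →* E,
      IsOpen (f.ker : Set H) → (∀ τ : H, (τ : G) ∈ I → f τ = 1) → ∀ g, f g ^ (p ^ e) = 1)
    (hX : NoPerf p π H I)
    (hpA : (p : A) ∈ maximalIdeal A)
    (ρ : H →* GL (Fin n) A)
    (hcts : ∀ N : ℕ, ∀ᶠ g in nhds (1 : H), MJ (maximalIdeal A ^ N)
      ((ρ g : Matrix (Fin n) (Fin n) A) - 1))
    (hur : ∀ τ : H, (τ : G) ∈ I → ρ τ = 1)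
    (hcong : ∀ g, ∃ α : Matrix (Fin n) (Fin n) A,
      (ρ g : Matrix (Fin n) (Fin n) A) = 1 + ((p : A) ^ e) • α) (g : H) :
    MJ (satI p (⊥ : Ideal A)) ((ρ g : Matrix (Fin n) (Fin n) A) - 1) := by
  by_cases htop : satI p (⊥ : Ideal A) = ⊤
  · intro i j
    rw [htop]
    exact Submodule.mem_top
  set J : Ideal A := satI p (⊥ : Ideal A) with hJ
  have hnt : Nontrivial (A ⧸ J) := Ideal.Quotient.nontrivial_iff.2 htop
  have hloc : IsLocalRing (A ⧸ J) :=
    IsLocalRing.of_surjective' _ Ideal.Quotient.mk_surjective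
  set q : A →+* A ⧸ J := Ideal.Quotient.mk J with hq
  have hql : IsLocalHom q := IsLocalHom.of_surjective _ Ideal.Quotient.mk_surjective
  set ρ' : H →* GL (Fin n) (A ⧸ J) := (GeneralLinearGroup.map q).comp ρ with hρ'
  have hsub : ∀ g, (ρ' g : Matrix (Fin n) (Fin n) (A ⧸ J)) - 1 =
      ((ρ g : Matrix (Fin n) (Fin n) A) - 1).map q := by
    intro g
    rw [Matrix.map_sub q (fun a b => map_sub q a b), Matrix.map_one q (map_zero q) (map_one q)]
    rfl
  have hpA' : (p : A ⧸ J) ∈ maximalIdeal (A ⧸ J) := by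
    have := map_max q hpA
    rwa [map_natCast] at this
  have hreg' : ∀ a : A ⧸ J, (p : A ⧸ J) * a = 0 → a = 0 := by
    intro a ha
    obtain ⟨a, rfl⟩ := Ideal.Quotient.mk_surjective a
    rw [← map_natCast (Ideal.Quotient.mk J), ← map_mul, Ideal.Quotient.eq_zero_iff_mem] at ha
    rw [Ideal.Quotient.eq_zero_iff_mem]
    obtain ⟨j, hj⟩ := ha
    refine ⟨j + 1, ?_⟩
    rw [pow_succ, mul_assoc]
    exact hj
  have hcts' : ∀ N : ℕ, ∀ᶠ g in nhds (1 : H), MJ (maximalIdeal (A ⧸ J) ^ N)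
      ((ρ' g : Matrix (Fin n) (Fin n) (A ⧸ J)) - 1) := by
    intro N
    filter_upwards [hcts N] with g hg i j
    rw [hsub]
    exact map_max_pow q (hg i j)
  have hur' : ∀ τ : H, (τ : G) ∈ I → ρ' τ = 1 := fun g hg => by
    show GeneralLinearGroup.map q (ρ g) = 1
    rw [hur g hg, map_one]
  have hcong' : ∀ g, ∃ α : Matrix (Fin n) (Fin n) (A ⧸ J),
      (ρ' g : Matrix (Fin n) (Fin n) (A ⧸ J)) = 1 + ((p : A ⧸ J) ^ e) • α := by
    intro g
    obtain ⟨α, hα⟩ := hcong g
    refine ⟨α.map q, ?_⟩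
    rw [← sub_eq_iff_eq_add', hsub, hα, add_sub_cancel_left]
    ext i j
    rw [Matrix.map_apply, Matrix.smul_apply, Matrix.smul_apply, Matrix.map_apply, smul_eq_mul,
      smul_eq_mul, map_mul, map_pow, map_natCast]
  have h1 := triv_gen hD π hπ H hHπ I hI e hpe he hX hpA' hreg' ρ' hcts' hur' hcong' g
  intro i j
  rw [← Ideal.Quotient.eq_zero_iff_mem]
  have h2 := hsub g
  rw [h1, Units.val_one, sub_self] at h2
  exact (congrFun (congrFun h2 i) j).symm

end

end Pool.Agent.X148.FM
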