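import Pool.Agent.X148.FM.NCrit2

/-!
Finiteness of the image
-/

set_option autoImplicit false

namespace Pool.Agent.X148.FM

open Pool.Agent.W569.FM Pool.Agent.TH831.NA Pool.Agent.TH831.OE Matrix IsLocalRing

section
variable {p : ℕ} [hp : Fact p.Prime]
  {H : Type} [Group H] [TopologicalSpace H] [IsTopologicalGroup H] [CompactSpace H]

omit [IsTopologicalGroup H] [CompactSpace H] in
/-- a finite set of elements which detects the characters -/
theorem exists_gens (Ur : Set H)
    (hV : {F : H →* Multiplicative (ZMod p) | IsOpen (F.ker : Set H) ∧ ∀ τ ∈ Ur, F τ = 1}.Finite) :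
    ∃ T : Set H, T.Finite ∧ ∀ F : H →* Multiplicative (ZMod p), IsOpen (F.ker : Set H) →
      (∀ τ ∈ Ur, F τ = 1) → (∀ t ∈ T, F t = 1) → ∀ g, F g = 1 := by
  classical
  have h1 : ∀ F : H →* Multiplicative (ZMod p), ∃ t : H, F t = 1 → ∀ g, F g = 1 := by
    intro F
    by_cases h : ∀ g, F g = 1
    · exact ⟨1, fun _ => h⟩
    · push Not at h
      obtain ⟨t, ht⟩ := h
      exact ⟨t, fun h => absurd h ht⟩
  choose t ht using h1
  refine ⟨t '' _, hV.image t, fun F ho hu hT => ?_⟩
  exact ht F (hT _ ⟨F, ⟨ho, hu⟩, rfl⟩)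

omit [IsTopologicalGroup H] [CompactSpace H] in
/-- finite `p`-groups are generated by the images of the elements of `T` -/
theorem gen_fin {E : Type} [Group E] [Finite E] (hE : IsPGroup p E) (f : H →* E)
    [ContinuousMul H]
    (hfs : Function.Surjective f) (hfo : IsOpen (f.ker : Set H)) (Ur T : Set H)
    (hur : ∀ g ∈ Ur, f g = 1)
    (hT : ∀ F : H →* Multiplicative (ZMod p), IsOpen (F.ker : Set H) →
      (∀ τ ∈ Ur, F τ = 1) → (∀ t ∈ T, F t = 1) → ∀ g, F g = 1) :
    Subgroup.closure (f '' T) = ⊤ := by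
  by_contra h
  obtain ⟨M, hM, hle⟩ := (eq_top_or_exists_le_coatom _).resolve_left h
  have hnil : Group.IsNilpotent E := hE.isNilpotent
  have hMn : M.Normal := Subgroup.NormalizerCondition.normal_of_coatom M
    Group.normalizerCondition_of_isNilpotent hM
  have hgen : ∀ x : E ⧸ M, x ≠ 1 → Subgroup.zpowers x = ⊤ := by
    intro x hx
    have h1 : M < (Subgroup.zpowers x).comap (QuotientGroup.mk' M) := by
      refine lt_of_le_of_ne ?_ ?_
      · intro y hy
        rw [Subgroup.mem_comap]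
        have : QuotientGroup.mk' M y = 1 := (QuotientGroup.eq_one_iff y).2 hy
        rw [this]
        exact Subgroup.one_mem _
      · intro h2
        obtain ⟨y, rfl⟩ := QuotientGroup.mk'_surjective M x
        apply hx
        refine (QuotientGroup.eq_one_iff y).2 ?_
        rw [h2]
        exact Subgroup.mem_zpowers _
    have h2 := hM.2 _ h1
    rw [eq_top_iff]
    rintro z -
    obtain ⟨y, rfl⟩ := QuotientGroup.mk'_surjective M z
    have h3 : y ∈ (Subgroup.zpowers x).comap (QuotientGroup.mk' M) := by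
      rw [h2]
      exact Subgroup.mem_top _
    exact h3
  have hcomm : ∀ a b : E ⧸ M, a * b = b * a := by
    intro a b
    by_cases ha : a = 1
    · rw [ha, one_mul, mul_one]
    · have h1 : b ∈ Subgroup.zpowers a := by
        rw [hgen a ha]
        exact Subgroup.mem_top _
      obtain ⟨k, rfl⟩ := h1
      exact (Commute.self_zpow a k).eq
  obtain ⟨e, he⟩ : ∃ e : E, e ∉ M := by
    by_contra hcon
    push Not at hcon
    exact hM.1 (eq_top_iff.2 fun x _ => hcon x)
  obtain ⟨F, x, hx⟩ := exists_char hcomm (hE.to_quotient M) (q := (QuotientGroup.mk' M e))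
    (fun h => he ((QuotientGroup.eq_one_iff e).1 h))
  obtain ⟨y, rfl⟩ := QuotientGroup.mk'_surjective M x
  obtain ⟨g, rfl⟩ := hfs y
  set F' : H →* Multiplicative (ZMod p) := (F.comp (QuotientGroup.mk' M)).comp f with hF'
  have h1 : ∀ a, f a = 1 → F' a = 1 := fun a ha => by
    rw [hF', MonoidHom.comp_apply, ha, map_one]
  exact hx (hT F' (Subgroup.isOpen_mono (fun a ha => h1 a ha) hfo)
    (fun a ha => h1 a (hur a ha)) (fun t ht => by
      have h4 : f t ∈ M := hle (Subgroup.subset_closure ⟨t, ht, rfl⟩)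
      rw [hF', MonoidHom.comp_apply, MonoidHom.comp_apply]
      have h5 : QuotientGroup.mk' M (f t) = 1 := (QuotientGroup.eq_one_iff _).2 h4
      rw [h5, map_one]) g)

variable {A : Type} [CommRing A] [IsLocalRing A] [IsNoetherianRing A] {n : ℕ}

/-- **finiteness of the image** -/
theorem fin_gen (hpA : (p : A) ∈ maximalIdeal A) {m : ℕ} (hm : 2 < p ^ m)
    (Ur : Set H)
    (hV : {F : H →* Multiplicative (ZMod p) | IsOpen (F.ker : Set H) ∧ ∀ τ ∈ Ur, F τ = 1}.Finite)
    {ρ : H →* GL (Fin n) A}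
    (hcts : ∀ N : ℕ, ∀ᶠ g in nhds (1 : H), MJ (maximalIdeal A ^ N)
      ((ρ g : Matrix (Fin n) (Fin n) A) - 1))
    (hur : ∀ g ∈ Ur, ρ g = 1)
    (hcong : ∀ g, ∃ α : Matrix (Fin n) (Fin n) A,
      (ρ g : Matrix (Fin n) (Fin n) A) = 1 + ((p : A) ^ m) • α)
    (htor : ∀ g, MJ (satI p (⊥ : Ideal A)) ((ρ g : Matrix (Fin n) (Fin n) A) - 1)) :
    (Set.range ρ).Finite := by
  classical
  obtain ⟨T, hTf, hT⟩ := exists_gens Ur hV
  have hm1 : 1 ≤ m := by
    rcases Nat.eq_zero_or_pos m with h | h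
    · rw [h, pow_zero] at hm
      omega
    · exact h
  obtain ⟨N, hN⟩ := exists_kill (p := p) (A := A)
  -- the chain
  set I : ℕ → Ideal A := fun i => Ideal.span {(p : A) ^ ((i + 1) * m)} ⊓ satI p (⊥ : Ideal A) with hI
  have hII : ∀ i, I i * I i ≤ I (i + 1) := by
    intro i
    rw [Ideal.mul_le]
    rintro a ⟨ha1, ha2⟩ b ⟨hb1, hb2⟩
    refine ⟨?_, Ideal.mul_mem_left _ _ hb2⟩
    obtain ⟨a', rfl⟩ := Ideal.mem_span_singleton.1 ha1
    obtain ⟨b', rfl⟩ := Ideal.mem_span_singleton.1 hb1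
    refine Ideal.mem_span_singleton.2 ?_
    have h1 : (p : A) ^ ((i + 1) * m) * a' * ((p : A) ^ ((i + 1) * m) * b') =
        (p : A) ^ ((i + 1) * m + (i + 1) * m) * (a' * b') := by
      rw [pow_add]
      ring
    rw [h1]
    exact Dvd.dvd.mul_right (pow_dvd_pow _ (by nlinarith)) _
  have hbot : I N = ⊥ := by
    rw [eq_bot_iff]
    rintro a ⟨ha1, ha2⟩
    obtain ⟨a', rfl⟩ := Ideal.mem_span_singleton.1 ha1
    obtain ⟨j, hj⟩ := ha2
    have h1 : a' ∈ satI p (⊥ : Ideal A) := by
      refine ⟨j + (N + 1) * m, ?_⟩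
      rw [pow_add, mul_assoc]
      exact hj
    have h2 := hN a' h1
    have h3 : N ≤ (N + 1) * m := by nlinarith
    obtain ⟨t, ht⟩ := Nat.exists_eq_add_of_le h3
    rw [Ideal.mem_bot, ht, pow_add, mul_comm ((p : A) ^ N), mul_assoc, h2, mul_zero]
  set C : ℕ → Subgroup (GL (Fin n) A) := fun i => cong n (I i) with hC
  have hCC : ∀ i, ⁅C i, C i⁆ ≤ C (i + 1) := fun i => comm_cong (hII i)
  have hCbot : C (0 + N) = ⊥ := by
    rw [zero_add, eq_bot_iff]
    intro x hx
    rw [hC] at hx
    have h1 := mem_cong.1 hx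
    rw [hbot] at h1
    rw [Subgroup.mem_bot]
    apply Units.ext
    rw [Units.val_one, ← sub_eq_zero]
    ext i j
    exact h1 i j
  -- the finitely generated subgroup
  set K : Subgroup (GL (Fin n) A) := Subgroup.closure (ρ '' T) with hK
  have hρC : ∀ g, ρ g ∈ C 0 := by
    intro g
    refine mem_cong.2 fun i j => ⟨?_, htor g i j⟩
    obtain ⟨α, hα⟩ := hcong g
    rw [hα, add_sub_cancel_left, Matrix.smul_apply, smul_eq_mul, zero_add, one_mul]
    exact Ideal.mem_span_singleton.2 (Dvd.intro _ rfl)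
  have hHC : K ≤ C 0 := by
    rw [hK, Subgroup.closure_le]
    rintro _ ⟨g, -, rfl⟩
    exact hρC g
  have hHfg : Group.FG K := by
    rw [Group.fg_iff_subgroup_fg]
    exact ⟨(hTf.image _).toFinset, by rw [Set.Finite.coe_toFinset]⟩
  have hHtor : ∀ x ∈ K, IsOfFinOrder x := by
    intro x hx
    have h1 := mem_cong.1 (hHC hx)
    have h2 : ∀ i j, ∃ b : A, ((x : Matrix (Fin n) (Fin n) A) - 1) i j = (p : A) ^ m * b := by
      intro i j
      have := (h1 i j).1
      rw [zero_add, one_mul] at this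
      exact Ideal.mem_span_singleton.1 this
    choose b hb using h2
    have hx1 : (x : Matrix (Fin n) (Fin n) A) = 1 + ((p : A) ^ m) • Matrix.of b := by
      rw [← sub_eq_iff_eq_add']
      ext i j
      rw [hb, Matrix.smul_apply, Matrix.of_apply, smul_eq_mul]
    obtain ⟨γ, -, hγ⟩ := matN hm1 hm (Matrix.of b) N 1
    rw [isOfFinOrder_iff_pow_eq_one]
    refine ⟨p ^ N * 1, by have := pow_pos hp.out.pos N; omega, ?_⟩
    apply Units.ext
    rw [Units.val_pow_eq_pow_val, hx1, hγ, Units.val_one, add_eq_left, ← smul_mul_assoc]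
    have h3 : ((p : A) ^ (m + N)) • Matrix.of b = 0 := by
      ext i j
      rw [Matrix.smul_apply, Matrix.of_apply, smul_eq_mul, Matrix.zero_apply, pow_add,
        mul_comm ((p : A) ^ m), mul_assoc]
      apply hN
      rw [← hb]
      exact (h1 i j).2
    rw [h3, zero_mul]
  have hHfin : Finite K := fin_chain C hCC N 0 K hHC hCbot hHfg hHtor
  -- density
  have hdense : ∀ (g : H) (k : ℕ), ∃ h : K,
      GeneralLinearGroup.map (Ideal.Quotient.mk (maximalIdeal A ^ k)) (h : GL (Fin n) A) =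
      GeneralLinearGroup.map (Ideal.Quotient.mk (maximalIdeal A ^ k)) (ρ g) := by
    intro g k
    set φ : GL (Fin n) A →* GL (Fin n) (A ⧸ maximalIdeal A ^ k) :=
      GeneralLinearGroup.map (Ideal.Quotient.mk (maximalIdeal A ^ k)) with hφ
    have h1 : IsOpen ((φ.comp ρ).rangeRestrict.ker : Set H) := by
      apply Subgroup.isOpen_of_mem_nhds _ (g := (1 : H))
      filter_upwards [hcts k] with g hg
      show (φ.comp ρ).rangeRestrict g = 1
      apply Subtype.ext
      exact mem_cong.2 hg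
    have h3 : Finite (φ.comp ρ).range := by
      have h1 : Finite (H ⧸ (φ.comp ρ).rangeRestrict.ker) :=
        Subgroup.quotient_finite_of_isOpen _ h1
      exact Finite.of_equiv _
        (QuotientGroup.quotientKerEquivOfSurjective _ (φ.comp ρ).rangeRestrict_surjective).toEquiv
    have h2 : IsPGroup p (φ.comp ρ).range := by
      rintro ⟨_, g, rfl⟩
      obtain ⟨α, hα⟩ := hcong g
      refine ⟨k, Subtype.ext ?_⟩
      exact pow_red hpA hm1 _ _ hα k
    have h4 := gen_fin h2 ((φ.comp ρ).rangeRestrict) (φ.comp ρ).rangeRestrict_surjective h1 Ur T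
      (fun a ha => Subtype.ext (by
        show φ (ρ a) = 1
        rw [hur a ha, map_one])) hT
    have h5 : (φ.comp ρ).rangeRestrict g ∈ Subgroup.closure ((φ.comp ρ).rangeRestrict '' T) := by
      rw [h4]
      exact Subgroup.mem_top _
    have h6 : φ (ρ g) ∈ K.map φ := by
      have h7 : φ (ρ g) ∈ (Subgroup.closure ((φ.comp ρ).rangeRestrict '' T)).map
          (φ.comp ρ).range.subtype := ⟨_, h5, rfl⟩
      rw [MonoidHom.map_closure] at h7
      rw [hK, MonoidHom.map_closure]
      convert h7 using 2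
      simp only [← Set.image_comp]
      rfl
    obtain ⟨h, hh, hh'⟩ := h6
    exact ⟨⟨h, hh⟩, hh'⟩
  have hmem : ∀ g, ρ g ∈ K := by
    intro g
    choose h hh using hdense g
    obtain ⟨y, hy⟩ := Finite.exists_infinite_fiber h
    have hyg : (y : GL (Fin n) A) = ρ g := by
      refine eq_of_red fun k => ?_
      obtain ⟨k', hk', hkk⟩ := (Set.infinite_coe_iff.1 hy).exists_gt k
      have h1 := hh k'
      rw [show h k' = y from hk'] at h1
      apply Units.ext
      ext i j
      have h2 := congrFun (congrFun (congrArg (fun M : GL (Fin n) (A ⧸ maximalIdeal A ^ k') =>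
        (M : Matrix (Fin n) (Fin n) (A ⧸ maximalIdeal A ^ k'))) h1) i) j
      have h3 := Ideal.Quotient.eq.1 h2
      exact Ideal.Quotient.eq.2 (Ideal.pow_le_pow_right hkk.le h3)
    rw [← hyg]
    exact y.2
  refine (Set.finite_coe_iff.1 hHfin).subset ?_
  rintro _ ⟨g, rfl⟩
  exact hmem g

omit hp [IsLocalRing A] [IsNoetherianRing A] [TopologicalSpace H] [IsTopologicalGroup H]
  [CompactSpace H] in
/-- rings in which `p ^ e` kills the `p`-power torsion -/
theorem triv_of_kill {e : ℕ} (hA : ∀ a : A, (p : A) ^ (e + 1) * a = 0 → (p : A) ^ e * a = 0)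
    {ρ : H →* GL (Fin n) A}
    (hcong : ∀ g, ∃ α : Matrix (Fin n) (Fin n) A,
      (ρ g : Matrix (Fin n) (Fin n) A) = 1 + ((p : A) ^ e) • α)
    (htor : ∀ g, MJ (satI p (⊥ : Ideal A)) ((ρ g : Matrix (Fin n) (Fin n) A) - 1)) (g : H) :
    ρ g = 1 := by
  have h1 : ∀ (j : ℕ) (a : A), (p : A) ^ (e + j) * a = 0 → (p : A) ^ e * a = 0 := by
    intro j
    induction j with
    | zero => intro a h; exact h
    | succ j ih =>
      intro a h
      apply ih
      have h2 := hA ((p : A) ^ j * a) (by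
        rw [← mul_assoc, ← pow_add]
        rw [show e + 1 + j = e + (j + 1) by omega]
        exact h)
      rwa [← mul_assoc, ← pow_add] at h2
  obtain ⟨α, hα⟩ := hcong g
  apply Units.ext
  rw [Units.val_one, ← sub_eq_zero]
  ext i j
  obtain ⟨N, hN⟩ := htor g i j
  rw [hα, add_sub_cancel_left, Matrix.smul_apply, smul_eq_mul, ← mul_assoc, ← pow_add] at hN
  rw [hα, add_sub_cancel_left, Matrix.smul_apply, smul_eq_mul, Matrix.zero_apply]
  exact h1 N _ (by rw [add_comm]; exact hN)

end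

end Pool.Agent.X148.FM
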